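import Pool.Agent.R800.AN.Chain
import Pool.Agent.Results.MP_177a0e_gt.NoBigonsInside

/-!
Ribbon genus and slice genus: surfaces composed of a surface between two knots, a chain of
concordances and an inner surface, the double curves of the concordances and of the inner surface
crossing one another evenly. The movies here go from the knot into the 4-ball, so that births of
components are the local maxima of the distance from the centre of the 4-ball. `GMovie g n` is a
movie with `g` handles and `n` births. Every crossing belongs to a double curve of the projection,
named by its colour; `curve k true` and `curve k false` are the names of the two curves in the
surface lying over the double curve with colour `k` (which are one curve, if the colour is even).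
-/

namespace Pool.Agent.Results.MP_177a0e_gt.EvenConcordanceInside

open Pool.Agent.Y468.SR Pool.Agent.Y874.TP Pool.Agent.R800.TP Pool.Agent.R800.AN
open Pool.Agent.Results.MP_177a0e_gt.NoBigonsInside (GMovie)

/-- Let the knot with Gauss code `w` bound a surface in the 4-ball composed of three parts. The first
part is given by a movie with `g` handles and `n` births from `w` to a knot `k`. The second part is a
chain of concordances between `k` and a knot `k'`, for each of which any two different curves of
the preimage of the double curves having ends on the two knots cross each other an even number of
times (`EvenConc`). The third part is a connected surface bounded by `k'` with a set of double curves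
not meeting `k'` (those with colours in `Z`), such that through each triple point there pass at least
two or none of these double curves, `T` being the list of the triple points of the second kind; if a
component is cut by a handle, let one of the two new components pass only through crossings with
colours in `Z`; let the double curves be named (after renaming the crossings of `k'` by `f`) so that
every curve of the preimage has at most two ends on `k'`, and let any two different curves of the
preimage having ends on `k'` cross each other an even number of times. Then the knot bounds a ribbon
surface of genus `g + n`: neither the handles and births of the third part nor the births of the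
concordances are counted. In particular, if the given surface has the slice genus and `n = 0`,
then the ribbon genus of the knot equals its slice genus. -/
theorem result (w k k' : List Pass) (g n : ℕ) (h₁ : GMovie g n [(w, 0)] [(k, 0)])
    (h₂ : Relation.EqvGen EvenConc k k') (hk : Classical [(k', 0)]) (f : ℕ → ℕ)
    (hf : Function.Injective f) (Z : ℕ → Prop) (T : List (ℕ × ℕ × ℕ))
    (hZ : ∀ p ∈ k'.map (ren f), ¬Z (colour p.crossing))
    (h₃ : TMovie true Z (renamed f [(k', 0)]) T)
    (h₄ : ∀ κ : ℕ × Bool, ((k'.map (ren f)).map ends).count κ ≤ 2)
    (h₅ : ∀ p ∈ k'.map (ren f), ∀ q ∈ k'.map (ren f), ends p ≠ ends q →
      Even ((T.flatMap crs).count s(ends p, ends q))) : GMovie (g + n) 0 [(w, 0)] [] := by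
  have h3 : Movie true false [(k, 0)] [] :=
    movie_mono (ribbon_of_chain (fun _ _ h => common_of_evenConc h) h₂ hk
      (ribbon_of_tmovie hk hf hZ h₃ h₄ h₅))
  have h4 : GMovie 0 0 [(k, 0)] [] :=
    GMovie.of_movie h3 (.refl [] (classical_empty (by simp [passes])))
  suffices h : ∀ {g n : ℕ} {A B E : Code}, GMovie g n A B → GMovie 0 0 B E → GMovie g n A E from
    (h h₁ h4).trade
  intro g n A B E h h'
  induction h with
  | refl D h => exact h'
  | step h hs _ ih => exact (ih h').step h hs
  | birth h b hb _ ih => exact GMovie.birth h b hb (ih h')
  | handle x y b h _ ih => exact GMovie.handle x y b h (ih h')

end Pool.Agent.Results.MP_177a0e_gt.EvenConcordanceInside
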