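import Pool.Agent.R800.TP.EvenC
import Pool.Agent.Results.MP_177a0e_gt.NoBigonsInside

/-!
Ribbon genus and slice genus: surfaces with arbitrarily many triple points, whose double curves near
the boundary cross one another evenly. The movies here go from the link into the 4-ball, so that
births of components are the local maxima of the distance from the centre of the 4-ball. `GMovie g n`
is a movie with `g` handles and `n` births. Every crossing belongs to a double curve of the
projection, named by its colour; `curve k true` and `curve k false` are the names of the two curves in
the surface lying over the double curve with colour `k` (which are one curve, if the colour is even).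
-/

namespace Pool.Agent.Results.MP_177a0e_gt.EvenCrossingsInside

open Pool.Agent.Y468.SR Pool.Agent.Y874.TP Pool.Agent.R800.TP
open Pool.Agent.Results.MP_177a0e_gt.NoBigonsInside (GMovie)

/-- Let the knot with Gauss code `w` bound a surface in the 4-ball given by a movie which has `g`
handles and `n` births before the link `D`, whose components bound disjoint connected surfaces in the
part of the 4-ball inside `D`. Let `A` be a set of double curves of the projection of these surfaces
(those with colours outside `Z`) which contains all double curves meeting `D`, such that through each
triple point inside `D` there pass none, one or three double curves (branches) of `A`; let `T` be the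
list of the triple points with three of them. If a component is cut by a handle inside `D`, let one
of the two new components pass only through crossings not in `A`. Let every curve of the preimage
have at most two ends on `D`, and suppose that any two different curves of the preimage having ends
on `D` cross each other evenly, i.e. at an even number of the triple points in `T`. Then the knot
bounds a ribbon surface of genus `g + n`: neither the handles nor the births inside `D` are counted.
In particular, if the given surface has the slice genus and `n = 0`, then the ribbon genus of the
knot equals its slice genus. -/
theorem result (w : List Pass) (g n : ℕ) (Z : ℕ → Prop) (D : Code) (T : List (ℕ × ℕ × ℕ))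
    (h₁ : GMovie g n [(w, 0)] D) (hD : (D.map Prod.snd).Nodup) (h₂ : TMovie true Z D T)
    (hZ : ∀ p ∈ passes D, ¬Z (colour p.crossing))
    (h₃ : ∀ κ : ℕ × Bool, ((passes D).map ends).count κ ≤ 2)
    (h₄ : ∀ p ∈ passes D, ∀ q ∈ passes D, ends p ≠ ends q →
      Even ((T.flatMap crs).count s(ends p, ends q))) : GMovie (g + n) 0 [(w, 0)] [] := by
  have h3 : Movie true false D [] := even_ribbon h₂ hZ hD h₃ h₄
  have h4 : GMovie 0 0 D [] :=
    GMovie.of_movie h3 (.refl [] (classical_empty (by simp [passes])))
  suffices h : ∀ {g n : ℕ} {A B E : Code}, GMovie g n A B → GMovie 0 0 B E → GMovie g n A E from
    (h h₁ h4).trade
  intro g n A B E h h'
  induction h with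
  | refl D h => exact h'
  | step h hs _ ih => exact (ih h').step h hs
  | birth h b hb _ ih => exact GMovie.birth h b hb (ih h')
  | handle x y b h _ ih => exact GMovie.handle x y b h (ih h')

end Pool.Agent.Results.MP_177a0e_gt.EvenCrossingsInside
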