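import Pool.Agent.R800.AN.Chain
import Pool.Agent.R800.IR.Irr
import Pool.Agent.Results.MP_177a0e_gt.NoBigonsInside

/-!
Ribbon genus and slice genus of knots joined to knots with irreducible diagrams by chains of
concordances whose double curves cross evenly. The movies here go from the knot into the 4-ball, so
that births of components are the local maxima of the distance from the centre of the 4-ball.
`GMovie g n` is a movie with `g` handles and `n` births. Every crossing belongs to a double curve of
the projection, named by its colour; `curve k true` and `curve k false` are the names of the two
curves in the surface lying over the double curve with colour `k` (which are one curve, if the colour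
is even).
-/

namespace Pool.Agent.Results.MP_177a0e_gt.IrreducibleKnots

open Pool.Agent.Y468.SR Pool.Agent.Y874.TP Pool.Agent.R800.TP Pool.Agent.R800.AN
open Pool.Agent.R800.IR
open Pool.Agent.Results.MP_177a0e_gt.NoBigonsInside (GMovie)

/-- Let the knot with Gauss code `w` bound a surface in the 4-ball composed of three parts. The first
part is given by a movie with `g` handles and `n` births from `w` to a knot `k₀`. The second part is a
chain of concordances between `k₀` and a knot `k`, for each of which any two different curves of
the preimage of the double curves having ends on the two knots cross each other an even number of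
times (`EvenConc`). The diagram `k` has no kinks, and any two crossings through which the knot passes
in succession on the same side (above or below) have the same sign (`Irr`), for instance `k` is an
alternating, a positive or a negative diagram without kinks. The third part is a surface of genus
`g'` with `n'` local maxima bounded by `k`. Then the knot bounds a surface of genus `g + g'` with
`n + n'` local maxima: the local maxima in the concordances are not counted. In particular, if the
ribbon genus of `k` equals its slice genus, the same holds for all knots joined to `k` by such a chain
of concordances. -/
theorem result (w k₀ k : List Pass) (g n g' n' : ℕ) (h₁ : GMovie g n [(w, 0)] [(k₀, 0)])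
    (h₂ : Relation.EqvGen EvenConc k₀ k) (h₃ : Irr k) (h₄ : GMovie g' n' [(k, 0)] []) :
    GMovie (g + g') (n + n') [(w, 0)] [] := by
  have hc : ∀ {g n : ℕ} {A B : Code}, GMovie g n A B → Classical A := by
    intro g n A B h
    cases h <;> assumption
  obtain ⟨m₁, m₂⟩ := movie_of_eqvGen (fun _ _ h => common_of_evenConc h) h₂
  have hk := hc h₄
  have hk₀ := classical_of_movie m₂ hk
  have h5 : GMovie g' n' [(k₀, 0)] [] :=
    GMovie.of_movie (movie_mono (ribbon_to_irr hk₀ hk h₃ m₁)) h₄
  clear h₄ h₂ m₁ m₂ hk hk₀
  generalize hA : [(w, 0)] = A at h₁ ⊢
  generalize hB : [(k₀, 0)] = B at h₁ h5
  clear hA hB
  induction h₁ with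
  | refl D h => simpa using h5
  | step h hs _ ih => exact (ih h5).step h hs
  | @birth g n D E h b hb _ ih =>
    have := GMovie.birth h b hb (ih h5)
    rwa [show n + n' + 1 = n + 1 + n' by omega] at this
  | @handle g n R E x y b h _ ih =>
    have := GMovie.handle x y b h (ih h5)
    rwa [show g + g' + 1 = g + 1 + g' by omega] at this

end Pool.Agent.Results.MP_177a0e_gt.IrreducibleKnots
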