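import Pool.Agent.R800.BT.Final
import Pool.Agent.Results.MP_177a0e_gt.NoBigonsInside

/-!
Ribbon genus and slice genus: surfaces such that each component of the double point set of the
projection near the boundary contains at most one triple point. The movies here go from the link into
the 4-ball, so that births of components are the local maxima of the distance from the centre of the
4-ball. `GMovie g n` is a movie with `g` handles and `n` births. The colours of the crossings are names
of sets of double curves; the names of sets containing curves with branch points are even.
-/

namespace Pool.Agent.Results.MP_177a0e_gt.OneTriplePointInside

open Pool.Agent.Y468.SR Pool.Agent.Y874.TP Pool.Agent.R800.TP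
open Pool.Agent.Results.MP_177a0e_gt.NoBigonsInside (GMovie)

/-- Let the knot with Gauss code `w` bound a surface in the 4-ball given by a movie which has `g`
handles and `n` births before the link `D`, whose components bound disjoint connected surfaces in the
part of the 4-ball inside `D`. Let `A` be a set of double curves of the projection of these surfaces
(those with colours outside `Z`) which contains all double curves meeting `D`, such that through each
triple point inside `D` there pass none, one or three double curves (branches) of `A`; let `T` be the
list of the triple points with three of them. If a component is cut by a handle inside `D`, let one
of the two new components pass only through crossings not in `A`. The colours outside `Z` are names of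
the classes of a partition of `A` such that the three double curves through a triple point in `T` are
in the same class (`h₃`), for instance of the connected components of the union of the curves in `A`,
if it is known that curves of different classes do not cross at the triple points in `T`. If each
class contains at most one triple point of `T` (`h₄`), then the knot bounds a ribbon surface of genus
`g + n`: neither the handles nor the births inside `D` are counted. In particular, if the given surface
has the slice genus and `n = 0`, then the ribbon genus of the knot equals its slice genus. -/
theorem result (w : List Pass) (g n : ℕ) (Z : ℕ → Prop) (D : Code) (T : List (ℕ × ℕ × ℕ))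
    (h₁ : GMovie g n [(w, 0)] D) (hD : (D.map Prod.snd).Nodup) (h₂ : TMovie true Z D T)
    (hZ : ∀ p ∈ passes D, ¬Z (colour p.crossing))
    (h₃ : ∀ t ∈ T, t.2.1 = t.1 ∧ t.2.2 = t.1) (h₄ : (T.map Prod.fst).Nodup) :
    GMovie (g + n) 0 [(w, 0)] [] := by
  have h3 : Movie true false D [] := Pool.Agent.R800.BT.ribbon_of_components h₂ hZ hD h₃ h₄
  have h4 : GMovie 0 0 D [] :=
    GMovie.of_movie h3 (.refl [] (classical_empty (by simp [passes])))
  suffices h : ∀ {g n : ℕ} {A B E : Code}, GMovie g n A B → GMovie 0 0 B E → GMovie g n A E from
    (h h₁ h4).trade
  intro g n A B E h h'
  induction h with
  | refl D h => exact h'
  | step h hs _ ih => exact (ih h').step h hs
  | birth h b hb _ ih => exact GMovie.birth h b hb (ih h')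
  | handle x y b h _ ih => exact GMovie.handle x y b h (ih h')

end Pool.Agent.Results.MP_177a0e_gt.OneTriplePointInside
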